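import Pool.Agent.Q211.CH.Main

/-!
# MP_ee811a_an: a simplex with sigma-compact set of extreme points whose map `T` is not in `C_1`

`RadonProb X` are the regular Borel probabilities on `X` with the weak* topology, `IsMaximal` is
maximality in the Choquet order, `Represents` is the representation of a point, `IsSimplex` is
existence and uniqueness of maximal representing measures, `ClassC1` and `ClassA1` are the
pointwise limits of sequences of continuous, respectively continuous affine, maps
(all in `Pool.Agent.Q211.CH.Defs`).
-/

namespace Pool.Agent.Results.MP_ee811a_an.FSigmaExtremePoints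

open Pool.Agent.Q211.CH

/-- There is a simplex `X` (a compact convex subset of a Hausdorff locally convex space) whose set
of extreme points is a countable union of compact (and closed) sets and `K`-analytic, and for which
the map `T` taking `x` to the unique maximal measure representing `x` is neither in `C_1` nor
in `A_1`. -/
theorem result :
    ∃ (E : Type) (_ : AddCommGroup E) (_ : Module ℝ E) (_ : TopologicalSpace E)
      (_ : IsTopologicalAddGroup E) (_ : ContinuousSMul ℝ E) (_ : LocallyConvexSpace ℝ E)
      (_ : T2Space E) (X : Set E),
      X.Nonempty ∧ IsCompact X ∧ Convex ℝ X ∧ IsSimplex X ∧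
      (∃ C : ℕ → Set E, (∀ n, IsCompact (C n) ∧ IsClosed (C n)) ∧
        ⋃ n, C n = X.extremePoints ℝ) ∧
      IsKAnalytic (X.extremePoints ℝ) ∧
      ∀ T : X → RadonProb X, (∀ x, IsMaximal (T x) ∧ Represents (T x) x) →
        ¬ ClassC1 T ∧ ¬ ClassA1 T := by
  refine ⟨V, inferInstance, inferInstance, inferInstance, inferInstance, inferInstance,
    inferInstance, inferInstance, XS, ⟨0, zero_mem⟩, XS_compact, XS_convex, frame.isSimplex,
    ⟨pieces, fun n => ⟨pieces_compact n, (pieces_compact n).isClosed⟩, pieces_union⟩, ?_, ?_⟩
  · rw [← pieces_union]
    exact isKAnalytic_iUnion pieces_compact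
  · intro T hT
    have e : T = frame.T := by
      funext x
      exact frame.T_unique x (T x) (hT x)
    rw [e]
    exact ⟨T_not_C1, fun h => T_not_C1 h.classC1⟩

end Pool.Agent.Results.MP_ee811a_an.FSigmaExtremePoints
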